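import Pool.Agent.H174.GP.StP

/-!
# Project GP (helper174): symmetry and tail of the Laplace distribution
-/

set_option autoImplicit false

open MeasureTheory ProbabilityTheory

namespace Pool.Agent.H187.GP174

open Pool.Agent.H174.GP

theorem dens_int : Integrable (fun x : ℝ => Real.exp (-|x|) / 2) := by
  have h1 : (∫ x : ℝ, Real.exp (-|x|) / 2) = 1 := by
    have h2 : (∫ x : ℝ, (fun y : ℝ => Real.exp (-y) / 2) |x|) =
        2 * ∫ x in Set.Ioi (0:ℝ), (fun y : ℝ => Real.exp (-y) / 2) x :=
      integral_comp_abs (f := fun y : ℝ => Real.exp (-y) / 2)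
    simp only at h2
    rw [h2, integral_div, integral_exp_neg_Ioi_zero]
    norm_num
  by_contra hcon
  rw [integral_undef hcon] at h1
  norm_num at h1

theorem lap_real (S : Set ℝ) (hS : MeasurableSet S) :
    lap.real S = ∫ x, S.indicator (fun x : ℝ => Real.exp (-|x|) / 2) x := by
  have h1 : lap S = ENNReal.ofReal (∫ x in S, Real.exp (-|x|) / 2) := by
    unfold lap
    rw [withDensity_apply _ hS, ofReal_integral_eq_lintegral_ofReal dens_int.integrableOn
      (Filter.Eventually.of_forall fun x => by positivity)]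
  rw [Measure.real, h1, ENNReal.toReal_ofReal (integral_nonneg fun x => by positivity),
    integral_indicator hS]

theorem lap_neg : Measure.map (fun x : ℝ => -x) lap = lap := by
  ext S hS
  have hm : Measurable (fun x : ℝ => -x) := measurable_neg
  have hf : Measurable (fun x : ℝ => ENNReal.ofReal (Real.exp (-|x|) / 2)) := by fun_prop
  rw [Measure.map_apply hm hS]
  unfold lap
  rw [withDensity_apply _ (hm hS), withDensity_apply _ hS, ← lintegral_indicator (hm hS),
    ← lintegral_indicator hS]
  have h1 := (Measure.measurePreserving_neg (volume : Measure ℝ)).lintegral_comp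
    (hf.indicator hS)
  rw [← h1]
  refine lintegral_congr fun x => ?_
  by_cases hx : -x ∈ S
  · rw [Set.indicator_of_mem (show x ∈ (fun x : ℝ => -x) ⁻¹' S from hx), Set.indicator_of_mem hx,
      abs_neg]
  · rw [Set.indicator_of_notMem (show x ∉ (fun x : ℝ => -x) ⁻¹' S from hx),
      Set.indicator_of_notMem hx]

theorem lap_tail (t : ℝ) (ht : 0 ≤ t) : lap.real {x | t ≤ |x|} = Real.exp (-t) := by
  have hS : MeasurableSet {x : ℝ | t ≤ |x|} := measurableSet_le measurable_const measurable_id.abs
  rw [lap_real _ hS]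
  have h1 : ∀ x : ℝ, {x : ℝ | t ≤ |x|}.indicator (fun x : ℝ => Real.exp (-|x|) / 2) x =
      (fun y : ℝ => (Set.Ici t).indicator (fun y : ℝ => Real.exp (-y) / 2) y) |x| := by
    intro x
    by_cases hx : t ≤ |x|
    · rw [Set.indicator_of_mem (show x ∈ {x : ℝ | t ≤ |x|} from hx)]
      change _ = (Set.Ici t).indicator (fun y : ℝ => Real.exp (-y) / 2) |x|
      rw [Set.indicator_of_mem (show |x| ∈ Set.Ici t from hx)]
    · rw [Set.indicator_of_notMem (show x ∉ {x : ℝ | t ≤ |x|} from hx)]
      change _ = (Set.Ici t).indicator (fun y : ℝ => Real.exp (-y) / 2) |x|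
      rw [Set.indicator_of_notMem (show |x| ∉ Set.Ici t from hx)]
  rw [integral_congr_ae (Filter.Eventually.of_forall h1),
    integral_comp_abs (f := fun y : ℝ => (Set.Ici t).indicator (fun y : ℝ => Real.exp (-y) / 2) y)]
  rw [setIntegral_indicator measurableSet_Ici]
  have h2 : (Set.Ioi (0 : ℝ) ∩ Set.Ici t : Set ℝ) =ᵐ[volume] Set.Ioi t := by
    rcases ht.lt_or_eq with h3 | h3
    · have h4 : Set.Ioi (0 : ℝ) ∩ Set.Ici t = Set.Ici t := by
        ext x
        simp only [Set.mem_inter_iff, Set.mem_Ioi, Set.mem_Ici]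
        exact ⟨fun h => h.2, fun h => ⟨lt_of_lt_of_le h3 h, h⟩⟩
      rw [h4]
      exact Ioi_ae_eq_Ici.symm
    · have h4 : Set.Ioi (0 : ℝ) ∩ Set.Ici t = Set.Ioi t := by
        rw [← h3]
        ext x
        simp only [Set.mem_inter_iff, Set.mem_Ioi, Set.mem_Ici]
        exact ⟨fun h => h.1, fun h => ⟨h, h.le⟩⟩
      rw [h4]
  rw [setIntegral_congr_set h2, integral_div, integral_exp_neg_Ioi]
  ring

/-- Symmetry and tail. -/
theorem gp_l3 : Pool.Agent.H174.GP.S_L3 := by
  refine ⟨lap_neg, lap_tail, fun x => ?_⟩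
  unfold lap
  exact (withDensity_absolutelyContinuous _ _) (measure_singleton x)

end Pool.Agent.H187.GP174
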